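import Pool.Agent.R884.TreeCap.Low

set_option autoImplicit false

/-!
# The best isocapacitary constant for the Hardy inequality on trees

The definitions (`RTree`, `Edge`, `Cl`, `geo`, `S`, `hardyOp`, `energy`, `hardyConst`, `cap`,
`isoConst`, `admissible`) are in `Pool.Agent.R884.TreeCap.Defs`.
-/

namespace Pool.Agent.Results.MP_a9eb04_an.BestConstant

open Pool.Agent.R884.TreeCap

/-- **Main theorem.** For `1 < p < ∞` the smallest constant `K` in `[μ] ≤ K [[μ]]_c` (for all
locally finite trees, all edge weights and all measures) is `p ^ p / (p - 1) ^ (p - 1)`. -/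
theorem result (p : ℝ) (hp : 1 < p) :
    IsLeast (admissible p) (ENNReal.ofReal (p ^ p / (p - 1) ^ (p - 1))) :=
  Pool.Agent.R884.TreeCap.main hp

end Pool.Agent.Results.MP_a9eb04_an.BestConstant
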